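import Mathlib
import Pool.Agent.H350R3.MG.PLem
import Pool.Agent.TH130.FP.Fail

/-!
# Fat points in fixed degree: failure of maximal conditions for arbitrary numbers of points

Fix the degree `d` and `ε > 0`, and let `n` be large. For `k` general points of `ℙⁿ`, `k` arbitrary,
and arbitrary multiplicities `1 ≤ m i ≤ d` let `F` be the coefficient of `t ^ d` in the series
`∏ i, (1 - t ^ (d + 1 - m i)) / (1 - t) ^ (n + 1)` truncated at its first coefficient that is not
positive. Then `dim V_d(Γ) = F` up to an error `ε * n ^ d`. The scheme `Γ` imposes maximal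
conditions (and `V_d(Γ) = 0`) as soon as some coefficient of the series up to degree `d` is at most
`- ε * n ^ j`. If there are two points with `m i + m j ≥ d + 2`, then it fails to impose maximal
conditions as soon as `F ≥ ε * n ^ d`. If there are no two such points, then `F` is the naive count
`max 0 (binom (d + n) n - ∑ binom (m i + n - 1) n)`.
-/

set_option autoImplicit false

namespace Pool.Agent.Results.MP_1dafdd_ag.AsymptoticClassification

open MvPolynomial
open scoped LinearAlgebra.Projectivization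
open Pool.Agent.H350R3.MG

/-- `V_d(Γ)`: the forms of degree `d` vanishing to order at least `m i` at the `i`-th point. -/
noncomputable def forms {n k : ℕ} (d : ℕ) (m : Fin k → ℕ) (P : Fin k → ℙ ℂ (Fin (n + 1) → ℂ)) :
    Submodule ℂ (MvPolynomial (Fin (n + 1)) ℂ) :=
  homogeneousSubmodule (Fin (n + 1)) ℂ d ⊓
    Submodule.restrictScalars ℂ (⨅ i, primeIdeal (P i) ^ m i : Ideal (MvPolynomial (Fin (n + 1)) ℂ))

/-- The naive count `binom (d + n) n - ∑ i, binom (m i + n - 1) n`. -/
def naive (n : ℕ) {k : ℕ} (d : ℕ) (m : Fin k → ℕ) : ℤ :=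
  ((d + n).choose n : ℤ) - ∑ i, ((m i + n - 1).choose n : ℤ)

/-- `Γ` imposes maximal conditions in degree `d`. -/
def ImposesMaximalConditions {n k : ℕ} (d : ℕ) (m : Fin k → ℕ)
    (P : Fin k → ℙ ℂ (Fin (n + 1) → ℂ)) : Prop :=
  (Module.finrank ℂ (forms d m P) : ℤ) = max 0 (naive n d m)

/-- The coefficient of `t ^ j` in the series `∏ i, (1 - t ^ (d + 1 - m i)) / (1 - t) ^ (n + 1)`. -/
noncomputable def co (n : ℕ) {k : ℕ} (d : ℕ) (m : Fin k → ℕ) (j : ℕ) : ℤ :=
  PowerSeries.coeff j
    ((PowerSeries.mk fun _ => (1 : ℤ)) ^ (n + 1) *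
      ∏ i : Fin k, (1 - PowerSeries.X ^ (d + 1 - m i)))

open Classical in
/-- The coefficient of `t ^ d` in the series truncated at its first coefficient that is not
positive. -/
noncomputable def truncated (n : ℕ) {k : ℕ} (d : ℕ) (m : Fin k → ℕ) : ℤ :=
  if ∀ j ≤ d, 0 < co n d m j then co n d m d else 0

lemma forms_mk {n k d : ℕ} {m : Fin k → ℕ} (hm : ∀ i, m i ≤ d) (v : Fin k → Fin (n + 1) → ℂ)
    (hv : ∀ i, v i ≠ 0) :
    forms d m (fun i => Projectivization.mk ℂ (v i) (hv i)) =
      H350MG.K (H350MG.ptList (fun i => d + 1 - m i)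
        (fun x : Fin k × Fin (n + 1) => v x.1 x.2)) d := by
  unfold forms
  ext F
  rw [Submodule.mem_inf, Submodule.restrictScalars_mem, Submodule.mem_iInf, H350MG.mem_K]
  constructor
  · rintro ⟨h1, h2⟩
    refine ⟨h1, ?_⟩
    intro c hc
    obtain ⟨i, rfl⟩ := H350MG.exists_of_mem_ptList hc
    have h3 := h2 i
    rw [primeIdeal_mk] at h3
    exact (H350MG.mem_pow_iff (hv i) (by have := hm i; omega) h1).1 h3
  · rintro ⟨h1, h2⟩
    refine ⟨h1, fun i => ?_⟩
    rw [primeIdeal_mk, H350MG.mem_pow_iff (hv i) (by have := hm i; omega) h1]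
    exact h2 (fun j => v i j, d + 1 - m i)
      (H350MG.mem_ptList (e := fun i => d + 1 - m i)
        (fun x : Fin k × Fin (n + 1) => v x.1 x.2) i)

lemma co_eq (n : ℕ) {k d : ℕ} (m : Fin k → ℕ) (j : ℕ) :
    H350MG.E (H350MG.gj (Fin (n + 1))) (List.ofFn fun i : Fin k => d + 1 - m i) j = co n d m j :=
  H350MG.E_ofFn_series (n + 1) (by omega) _ j

lemma naive_eq {n k d : ℕ} {m : Fin k → ℕ} (hm1 : ∀ i, 1 ≤ m i) (hmd : ∀ i, m i ≤ d) :
    H350MG.gj (Fin (n + 1)) d - H350MG.sm (Fin (n + 1)) (List.ofFn fun i : Fin k => d + 1 - m i) d =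
      naive n d m := by
  unfold naive
  rw [H350MG.sm_ofFn, Pool.Agent.TH130.FP.gj_fin, Nat.add_comm n d]
  congr 1
  refine Finset.sum_congr rfl fun i _ => ?_
  have h1 := hm1 i
  have h2 := hmd i
  rw [if_pos (by omega), Pool.Agent.TH130.FP.gj_fin]
  have h3 : n + (d - (d + 1 - m i)) = m i + n - 1 := by omega
  rw [h3]

lemma truncated_eq {n k d : ℕ} {m : Fin k → ℕ} (hm1 : ∀ i, 1 ≤ m i) (hmd : ∀ i, m i ≤ d)
    (h : ∀ i j, i ≠ j → m i + m j ≤ d + 1) :
    (∀ j ≤ d, co n d m j = H350MG.gj (Fin (n + 1)) j -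
      H350MG.sm (Fin (n + 1)) (List.ofFn fun i : Fin k => d + 1 - m i) j) ∧
    truncated n d m = max 0 (naive n d m) := by
  classical
  have hp : (List.ofFn fun i : Fin k => d + 1 - m i).Pairwise (fun a b => d < a + b) := by
    rw [List.pairwise_ofFn]
    intro i j hij
    have h1 := h i j hij.ne
    have h2 := hmd i
    have h3 := hmd j
    omega
  have hco : ∀ j ≤ d, co n d m j = H350MG.gj (Fin (n + 1)) j -
      H350MG.sm (Fin (n + 1)) (List.ofFn fun i : Fin k => d + 1 - m i) j := by
    intro j hj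
    rw [← co_eq n m j]
    exact Pool.Agent.TH130.FP.E_pairwise _ hp j hj
  refine ⟨hco, ?_⟩
  have hd := hco d le_rfl
  rw [naive_eq hm1 hmd] at hd
  unfold truncated
  by_cases hpos : 0 < naive n d m
  · have h1 : ∀ j ≤ d, 0 < co n d m j := by
      intro j hj
      rw [hco j hj]
      refine Pool.Agent.TH130.FP.naive_pos ?_ j hj
      rw [naive_eq hm1 hmd]
      exact hpos
    rw [if_pos h1, hd, max_eq_right hpos.le]
  · rw [if_neg (fun h1 => hpos (hd ▸ h1 d le_rfl)), max_eq_left (not_lt.1 hpos)]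

/-- Fix `d` and `ε > 0`. There is an `n₀` such that for all `n ≥ n₀`, all `k` and all multiplicities
`1 ≤ m i ≤ d` the following holds for `k` general points of `ℙⁿ`:

* `dim V_d(Γ)` is the truncated coefficient up to an error `ε * n ^ d`;
* if some coefficient of the series up to degree `d` is at most `-ε * n ^ j`, then `Γ` imposes
  maximal conditions in degree `d`, and `V_d(Γ) = 0`;
* if `m i + m j ≥ d + 2` for some `i ≠ j` and the truncated coefficient is at least `ε * n ^ d`,
  then `Γ` fails to impose maximal conditions in degree `d`;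
* if `m i + m j ≤ d + 1` for all `i ≠ j`, then the truncated coefficient is the naive count
  `max 0 (binom (d + n) n - ∑ i, binom (m i + n - 1) n)`, and `Γ` imposes maximal conditions in
  degree `d` if `∑ i, binom (m i + n - 1) n ≥ (1 + ε) * binom (d + n) n`. -/
theorem result (d : ℕ) (ε : ℝ) (hε : 0 < ε) :
    ∃ n₀ : ℕ, ∀ (n k : ℕ) (m : Fin k → ℕ), n₀ ≤ n → (∀ i, 1 ≤ m i) → (∀ i, m i ≤ d) →
      Generally (fun P : Fin k → ℙ ℂ (Fin (n + 1) → ℂ) =>
        |(Module.finrank ℂ (forms d m P) : ℝ) - (truncated n d m : ℝ)| ≤ ε * (n : ℝ) ^ d ∧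
        ((∃ j ≤ d, (co n d m j : ℝ) ≤ -(ε * (n : ℝ) ^ j)) →
          ImposesMaximalConditions d m P ∧ forms d m P = ⊥) ∧
        ((∃ i j, i ≠ j ∧ d + 2 ≤ m i + m j) → ε * (n : ℝ) ^ d ≤ (truncated n d m : ℝ) →
          ¬ ImposesMaximalConditions d m P) ∧
        ((∀ i j, i ≠ j → m i + m j ≤ d + 1) →
          truncated n d m = max 0 (naive n d m) ∧
          ((1 + ε) * ((d + n).choose n : ℝ) ≤ ∑ i, ((m i + n - 1).choose n : ℝ) →
            ImposesMaximalConditions d m P ∧ forms d m P = ⊥))) := by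
  classical
  have hfac : (1 : ℝ) ≤ (d.factorial : ℝ) := by exact_mod_cast Nat.factorial_pos d
  obtain ⟨δ, hδdef⟩ : ∃ δ : ℝ, δ = ε / 2 / d.factorial := ⟨_, rfl⟩
  have hδ : 0 < δ := by rw [hδdef]; positivity
  have hδε : δ ≤ ε / 2 := by rw [hδdef]; exact div_le_self (by positivity) hfac
  obtain ⟨C, n0, hC0, hn0, H⟩ := Pool.Agent.TH130.FP.main_K_succ d δ hδ
  refine ⟨n0, fun n k m hn hm1 hmd => ?_⟩
  have hn1 : 1 ≤ n := hn0.trans hn
  have hnR : (0 : ℝ) < n := by exact_mod_cast hn1
  have hnd : ∀ j, (0 : ℝ) < (n : ℝ) ^ j := fun j => by positivity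
  have he : ∀ i, 1 ≤ d + 1 - m i := fun i => by have := hmd i; omega
  obtain ⟨h, ⟨Φ, hΦ0, hΦ⟩, hb⟩ := H ℂ n hn k (fun i => d + 1 - m i) he
  obtain ⟨b1, b2, b3⟩ := hb d le_rfl
  simp only [co_eq n m] at b2 b3
  have htr : Pool.Agent.TH130.FP.trunc (n + 1) (List.ofFn fun i : Fin k => d + 1 - m i) d =
      truncated n d m := by
    unfold Pool.Agent.TH130.FP.trunc truncated
    simp only [co_eq n m]
  rw [htr] at b1
  refine generally_of_poly Φ hΦ0 ?_
  intro v hv hv2
  have hfr : Module.finrank ℂ (forms d m fun i => Projectivization.mk ℂ (v i) (hv i)) = h d := by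
    rw [forms_mk hmd v hv]
    exact hΦ _ hv2 d (Finset.mem_range.2 (by omega))
  have hge : naive n d m ≤
      (Module.finrank ℂ (forms d m fun i => Projectivization.mk ℂ (v i) (hv i)) : ℤ) := by
    have h1 := H350MG.finrank_K_ge (H350MG.ptList (fun i => d + 1 - m i)
      (fun x : Fin k × Fin (n + 1) => v x.1 x.2)) d
    rw [H350MG.map_snd_ptList, naive_eq hm1 hmd] at h1
    rw [forms_mk hmd v hv]
    exact h1
  have hzero : h d = 0 →
      ImposesMaximalConditions d m (fun i => Projectivization.mk ℂ (v i) (hv i)) ∧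
      forms d m (fun i => Projectivization.mk ℂ (v i) (hv i)) = ⊥ := by
    intro h0
    have hfin : FiniteDimensional ℂ
        (forms d m (fun i => Projectivization.mk ℂ (v i) (hv i))) := by
      rw [forms_mk hmd v hv]
      exact Submodule.finiteDimensional_of_le (H350MG.K_le _ d)
    refine ⟨?_, ?_⟩
    · unfold ImposesMaximalConditions
      rw [hfr, h0] at hge ⊢
      rw [max_eq_left]
      · rfl
      · simpa using hge
    · rw [h0] at hfr
      exact Submodule.finrank_eq_zero.1 hfr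
  have hle : ∀ j, δ * (n : ℝ) ^ j ≤ ε * (n : ℝ) ^ j := fun j =>
    mul_le_mul_of_nonneg_right (by linarith) (hnd j).le
  refine ⟨?_, ?_, ?_, ?_⟩
  · rw [hfr]
    exact b1.trans (hle d)
  · rintro ⟨j, hj, hj2⟩
    refine hzero (b3 ⟨j, hj, ?_⟩)
    have := hle j
    linarith
  · rintro ⟨i, j, hij, hsum⟩ htr2 himp
    have h1 : naive n d m <
        (Module.finrank ℂ (forms d m fun i => Projectivization.mk ℂ (v i) (hv i)) : ℤ) := by
      rw [forms_mk hmd v hv]
      have h2 := Pool.Agent.TH130.FP.finrank_gt_of_pair (𝕜 := ℂ) (σ := Fin (n + 1))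
        (e := fun i => d + 1 - m i) (P := fun x : Fin k × Fin (n + 1) => v x.1 x.2) (d := d) hij
        (by have := hmd i; have := hmd j; omega) (hv j)
      rw [naive_eq hm1 hmd] at h2
      exact h2
    have h2 : 0 < (Module.finrank ℂ (forms d m fun i => Projectivization.mk ℂ (v i) (hv i)) : ℤ) := by
      have h3 := (abs_le.1 b1).1
      have h4 : δ * (n : ℝ) ^ d ≤ ε / 2 * (n : ℝ) ^ d := mul_le_mul_of_nonneg_right hδε (hnd d).le
      have h5 : (0 : ℝ) < h d := by
        have := hnd d
        have h6 : 0 < ε / 2 * (n : ℝ) ^ d := by positivity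
        linarith
      have h6 : 0 < h d := by exact_mod_cast h5
      rw [hfr]
      exact_mod_cast h6
    unfold ImposesMaximalConditions at himp
    rw [himp] at h1 h2
    rcases max_choice (0 : ℤ) (naive n d m) with h3 | h3
    · rw [h3] at h2
      exact lt_irrefl _ h2
    · rw [h3] at h1
      exact lt_irrefl _ h1
  · intro hpairs
    obtain ⟨hco, htru⟩ := truncated_eq (n := n) hm1 hmd hpairs
    refine ⟨htru, fun hs => ?_⟩
    refine hzero (b3 ⟨d, le_rfl, ?_⟩)
    rw [hco d le_rfl, naive_eq hm1 hmd]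
    have h4 : (n : ℝ) ^ d ≤ d.factorial * ((d + n).choose n : ℝ) := by
      have h5 : n ^ d ≤ (n + d).descFactorial d := by
        have h6 := Nat.pow_sub_le_descFactorial (n + d) d
        refine le_trans (Nat.pow_le_pow_left (by omega) d) h6
      rw [Nat.descFactorial_eq_factorial_mul_choose] at h5
      have h6 : (n + d).choose d = (d + n).choose n := by
        rw [Nat.add_comm d n]; exact (Nat.choose_symm_add).symm
      rw [h6] at h5
      exact_mod_cast h5
    have h5 : δ * (n : ℝ) ^ d ≤ ε * ((d + n).choose n : ℝ) := by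
      calc δ * (n : ℝ) ^ d ≤ δ * (d.factorial * ((d + n).choose n : ℝ)) :=
            mul_le_mul_of_nonneg_left h4 hδ.le
        _ = ε / 2 * ((d + n).choose n : ℝ) := by rw [hδdef]; field_simp
        _ ≤ ε * ((d + n).choose n : ℝ) :=
            mul_le_mul_of_nonneg_right (by linarith) (by positivity)
    unfold naive
    push_cast
    linarith

end Pool.Agent.Results.MP_1dafdd_ag.AsymptoticClassification
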