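import Pool.Agent.TH176.FB.Fat2

/-!
# `t ^ r` general points of large multiplicity in `ℙ^r` impose maximal conditions in all degrees

For `r ≥ 2`, `t ≥ 2` and `m ≥ (r - 1) t ^ r` the scheme of `t ^ r` general points of multiplicity `m` in
projective space of dimension `r` imposes maximal conditions in every degree `d`. Precisely, there is
no form of degree `d` with the given multiplicities if `2 (d - t m) < (r - 1) t - (r + 1)`, and the
conditions are independent otherwise.

The independence is shown by points on a complete intersection curve. For the emptiness the space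
degenerates to the normal cones of a flag of complete intersections of hypersurfaces of degree `t`
containing the monomial curve `u ↦ (u, u ^ t, u ^ (t ^ 2), …)`; all but `r - 1` of the points are placed
on the curve and the others on the coordinate surfaces of the normal cone. The coefficients of a form
in the normal coordinates are polynomials in `u` with few terms, which vanish one after the other by
Descartes' rule of signs.
-/

set_option autoImplicit false

namespace Pool.Agent.Results.MP_1dafdd_ag.PerfectPowers

open MvPolynomial

/-- The polynomial `F` vanishes to order at least `m` at the point `p`: all Taylor coefficients of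
order smaller than `m` of `F` at `p` are zero. -/
def VanishesToOrder {n : ℕ} (m : ℕ) (p : Fin n → ℂ) (F : MvPolynomial (Fin n) ℂ) : Prop :=
  ∀ s : Fin n →₀ ℕ, s.degree < m →
    coeff s (aeval (fun j => (X j + C (p j) : MvPolynomial (Fin n) ℂ)) F) = 0

/-- The vector space of forms of degree `d` in `n` variables which vanish to order at least `m i`
at the point with homogeneous coordinates `p i`, for every `i`. -/
noncomputable def forms (n d : ℕ) {k : ℕ} (m : Fin k → ℕ) (p : Fin k → Fin n → ℂ) :
    Submodule ℂ (MvPolynomial (Fin n) ℂ) where
  carrier := {F | F.IsHomogeneous d ∧ ∀ i, VanishesToOrder (m i) (p i) F}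
  add_mem' := by
    rintro F G ⟨hF, hF'⟩ ⟨hG, hG'⟩
    refine ⟨hF.add hG, fun i s hs => ?_⟩
    rw [map_add, coeff_add, hF' i s hs, hG' i s hs, add_zero]
  zero_mem' := ⟨isHomogeneous_zero _ _ _, fun i s _ => by simp⟩
  smul_mem' := by
    rintro c F ⟨hF, hF'⟩
    refine ⟨?_, fun i s hs => ?_⟩
    · rw [smul_eq_C_mul]
      simpa using (isHomogeneous_C (Fin n) c).mul hF
    · rw [map_smul, coeff_smul, hF' i s hs, smul_zero]

/-- A property of `k`-tuples of points of projective space of dimension `n - 1` (given by
homogeneous coordinates) holds for general points: it holds for all tuples outside the zero set of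
some nonzero polynomial in the coordinates. -/
def ForGeneral (n k : ℕ) (P : (Fin k → Fin n → ℂ) → Prop) : Prop :=
  ∃ D : MvPolynomial (Fin k × Fin n) ℂ, D ≠ 0 ∧
    ∀ p : Fin k → Fin n → ℂ, eval (fun ij => p ij.1 ij.2) D ≠ 0 → P p

/-- The fat point scheme with multiplicities `m i` at the points `p i` of projective space of
dimension `r` imposes maximal conditions in degree `d`. The subtraction is truncated. -/
def MaximalConditions (r d : ℕ) {k : ℕ} (m : Fin k → ℕ) (p : Fin k → Fin (r + 1) → ℂ) : Prop :=
  Module.finrank ℂ (forms (r + 1) d m p) =
    (d + r).choose r - ∑ i, (m i + r - 1).choose r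

/-- `t ^ r` general points of multiplicity `m ≥ (r - 1) t ^ r` impose maximal conditions in every
degree. -/
theorem result (r t m d : ℕ) (hr : 2 ≤ r) (ht : 2 ≤ t) (hm : (r - 1) * t ^ r ≤ m) :
    ForGeneral (r + 1) (t ^ r) (fun p => MaximalConditions r d (fun _ => m) p) := by
  obtain ⟨n, rfl⟩ : ∃ n, r = n + 1 := ⟨r - 1, by omega⟩
  rw [Nat.add_sub_cancel] at hm
  have h1 : 1 ≤ m := by
    have h2 : 0 < n * t ^ (n + 1) := Nat.mul_pos (by omega) (pow_pos (by omega) _)
    omega
  obtain ⟨D, hD, h⟩ := Pool.Agent.TH176.FB.fat_all n t m d ht h1 hm
  refine ⟨D, hD, fun p hp => ?_⟩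
  have h3 := h p hp
  have h4 : m + (n + 1) - 1 = m + n := by omega
  unfold MaximalConditions
  rw [Finset.sum_const, Finset.card_univ, Fintype.card_fin, smul_eq_mul, h4]
  exact h3

end Pool.Agent.Results.MP_1dafdd_ag.PerfectPowers
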