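import Mathlib
import Pool.Agent.H350R3.MG.PLem
import Pool.Agent.TH130.PE.Forms

/-!
# Fat points of mixed multiplicities in fixed degree: a positive density of conditions

Fix the degree `d`. There is a `c > 0` such that the following holds in every `ℙⁿ`, `n ≥ 1`, for all
multiplicities `m 1, …, m k ≥ 1` among which there are at most `c * n ^ (d + 1 - μ)` that are equal
to `μ`, for `1 ≤ μ ≤ d` (so that the points of multiplicity `μ` may impose up to a positive
proportion of all the `≈ n ^ d / d!` conditions): for general points, the dimension of the space of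
forms of degree `d` with these multiplicities is the coefficient of `t ^ d` in
`∏ (1 - t ^ (d + 1 - m i)) / (1 - t) ^ (n + 1)` (and `0` if some `m i > d`), and the fat point
scheme fails to impose maximal conditions in degree `d` if and only if all `m i ≤ d` and
`m i + m j ≥ d + 2` for some two of the points.

The points are specialised to characteristic vectors of random transversals inside the blocks
`{(a, f(a))}` of a Reed–Solomon type configuration in which blocks of different sizes of the family
are used for the different multiplicities.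
-/

set_option autoImplicit false

namespace Pool.Agent.Results.MP_1dafdd_ag.PositiveDensity

open MvPolynomial
open scoped LinearAlgebra.Projectivization
open Pool.Agent.H350R3.MG

/-- `V_d(Γ)`: the forms of degree `d` vanishing to order at least `m i` at the `i`-th point. -/
noncomputable def forms {n k : ℕ} (d : ℕ) (m : Fin k → ℕ) (P : Fin k → ℙ ℂ (Fin (n + 1) → ℂ)) :
    Submodule ℂ (MvPolynomial (Fin (n + 1)) ℂ) :=
  homogeneousSubmodule (Fin (n + 1)) ℂ d ⊓
    Submodule.restrictScalars ℂ (⨅ i, primeIdeal (P i) ^ m i : Ideal (MvPolynomial (Fin (n + 1)) ℂ))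

/-- `Γ` imposes maximal conditions in degree `d`. -/
def ImposesMaximalConditions {n k : ℕ} (d : ℕ) (m : Fin k → ℕ)
    (P : Fin k → ℙ ℂ (Fin (n + 1) → ℂ)) : Prop :=
  (Module.finrank ℂ (forms d m P) : ℤ) =
    max 0 (((d + n).choose n : ℤ) - ∑ i, ((m i + n - 1).choose n : ℤ))

/-- The coefficient of `t ^ d` in `∏ i, (1 - t ^ (d + 1 - m i)) / (1 - t) ^ (n + 1)`. -/
noncomputable def co {k : ℕ} (n d : ℕ) (m : Fin k → ℕ) : ℤ :=
  PowerSeries.coeff d
    ((PowerSeries.mk fun _ => (1 : ℤ)) ^ (n + 1) * ∏ i, (1 - PowerSeries.X ^ (d + 1 - m i)))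

lemma forms_mk {n k d : ℕ} {m : Fin k → ℕ} (hm : ∀ i, m i ≤ d) (v : Fin k → Fin (n + 1) → ℂ)
    (hv : ∀ i, v i ≠ 0) :
    forms d m (fun i => Projectivization.mk ℂ (v i) (hv i)) =
      H350MG.K (H350MG.ptList (fun i => d + 1 - m i)
        (fun x : Fin k × Fin (n + 1) => v x.1 x.2)) d := by
  unfold forms
  ext F
  rw [Submodule.mem_inf, Submodule.restrictScalars_mem, Submodule.mem_iInf, H350MG.mem_K]
  constructor
  · rintro ⟨h1, h2⟩
    refine ⟨h1, ?_⟩
    intro c hc
    obtain ⟨i, rfl⟩ := H350MG.exists_of_mem_ptList hc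
    have h3 := h2 i
    rw [primeIdeal_mk] at h3
    exact (H350MG.mem_pow_iff (hv i) (by have := hm i; omega) h1).1 h3
  · rintro ⟨h1, h2⟩
    refine ⟨h1, fun i => ?_⟩
    rw [primeIdeal_mk, H350MG.mem_pow_iff (hv i) (by have := hm i; omega) h1]
    exact h2 (fun j => v i j, d + 1 - m i)
      (H350MG.mem_ptList (e := fun i => d + 1 - m i)
        (fun x : Fin k × Fin (n + 1) => v x.1 x.2) i)

lemma gj_fin (n j : ℕ) : H350MG.gj (Fin (n + 1)) j = ((n + j).choose n : ℕ) := by
  unfold H350MG.gj
  rw [Fintype.card_fin]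
  have h1 : n + 1 + j - 1 = n + j := by omega
  rw [h1, ← Nat.choose_symm_add]

/-- The classification and the dimensions in degree `d` for at most `c * n ^ (d + 1 - μ)` points of
multiplicity `μ`, `1 ≤ μ ≤ d`. -/
theorem result (d : ℕ) :
    ∃ c : ℝ, 0 < c ∧ ∀ (n k : ℕ) (m : Fin k → ℕ), 1 ≤ n → (∀ i, 1 ≤ m i) →
      (∀ μ : ℕ, 1 ≤ μ → μ ≤ d →
        ((Finset.univ.filter fun i => m i = μ).card : ℝ) ≤ c * (n : ℝ) ^ (d + 1 - μ)) →
      ((∀ i, m i ≤ d) → 0 < co n d m ∧
        Generally (fun P : Fin k → ℙ ℂ (Fin (n + 1) → ℂ) =>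
          (Module.finrank ℂ (forms d m P) : ℤ) = co n d m)) ∧
      ((∃ i, d < m i) →
        Generally (fun P : Fin k → ℙ ℂ (Fin (n + 1) → ℂ) => forms d m P = ⊥)) ∧
      (((∀ i, m i ≤ d) ∧ ∃ i j, i ≠ j ∧ d + 2 ≤ m i + m j) →
        Generally (fun P : Fin k → ℙ ℂ (Fin (n + 1) → ℂ) => ¬ ImposesMaximalConditions d m P)) ∧
      (¬ ((∀ i, m i ≤ d) ∧ ∃ i j, i ≠ j ∧ d + 2 ≤ m i + m j) →
        Generally (fun P : Fin k → ℙ ℂ (Fin (n + 1) → ℂ) => ImposesMaximalConditions d m P)) := by
  classical
  obtain ⟨c, hc, H⟩ := TH130PE.main2 ℂ d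
  refine ⟨c, hc, ?_⟩
  intro n k m hn hm1 hcount
  have hbot : ∀ (v : Fin k → Fin (n + 1) → ℂ) (hv : ∀ i, v i ≠ 0), (∃ i, d < m i) →
      forms d m (fun i => Projectivization.mk ℂ (v i) (hv i)) = ⊥ := by
    rintro v hv ⟨i, hi⟩
    rw [eq_bot_iff]
    intro F hF
    unfold forms at hF
    rw [Submodule.mem_inf, Submodule.restrictScalars_mem, Submodule.mem_iInf] at hF
    have h2 := hF.2 i
    rw [primeIdeal_mk] at h2
    rw [Submodule.mem_bot]
    exact H350MG.eq_zero_of_mem_pow hi h2 hF.1
  by_cases hmd : ∀ i, m i ≤ d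
  · have he : ∀ i, 0 < d + 1 - m i := fun i => by have := hmd i; omega
    obtain ⟨hs, P0, hP0⟩ := H (Fin (n + 1)) n k (fun i => d + 1 - m i)
      (by rw [Fintype.card_fin]; omega) (by rw [Fintype.card_fin]; omega) he (by
        intro e' h1 h2
        have h3 := hcount (d + 1 - e') (by omega) (by omega)
        have h4 : (Finset.univ.filter fun i => d + 1 - m i = e')
            = (Finset.univ.filter fun i => m i = d + 1 - e') := by
          ext i
          simp only [Finset.mem_filter, Finset.mem_univ, true_and]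
          have := hmd i
          omega
        rw [h4]
        refine h3.trans (le_of_eq ?_)
        congr 2
        omega)
    obtain ⟨Φ, hΦ0, hΦ⟩ := TH130PE.generic_compare' ℂ he hs hP0
    have hco : H350MG.E (H350MG.gj (Fin (n + 1))) (List.ofFn fun i => d + 1 - m i) d =
        co n d m := by
      rw [H350MG.E_ofFn_series (n + 1) (by omega)]
      rfl
    have hterm : (H350MG.gj (Fin (n + 1)) d -
        ∑ i, (if d + 1 - m i ≤ d then H350MG.gj (Fin (n + 1)) (d - (d + 1 - m i)) else 0))
        = ((d + n).choose n : ℤ) - ∑ i, ((m i + n - 1).choose n : ℤ) := by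
      rw [gj_fin, Nat.add_comm n d]
      congr 1
      refine Finset.sum_congr rfl fun i _ => ?_
      have h1 := hm1 i
      have h2 := hmd i
      rw [if_pos (by omega), gj_fin]
      have h3 : n + (d - (d + 1 - m i)) = m i + n - 1 := by omega
      rw [h3]
    have hpos : 0 < ((d + n).choose n : ℤ) - ∑ i, ((m i + n - 1).choose n : ℤ) := by
      rw [← hterm]
      have := hs d le_rfl
      linarith
    refine ⟨fun _ => ⟨?_, ?_⟩, fun h => ?_, ?_, ?_⟩
    · rw [← hco]
      exact TH130PE.E_pos_of he hs hP0 d le_rfl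
    · refine generally_of_poly Φ hΦ0 ?_
      intro v hv hv2
      rw [forms_mk hmd v hv, ← hco]
      exact (hΦ _ hv2).1 d le_rfl
    · obtain ⟨i, hi⟩ := h
      exact absurd (hmd i) (by omega)
    · rintro ⟨-, i, j, hij, hle⟩
      refine generally_of_poly Φ hΦ0 ?_
      intro v hv hv2 himp
      have h1 := (hΦ _ hv2).2.2.2 ⟨i, j, hij, by have := hmd i; have := hmd j; omega⟩
      unfold ImposesMaximalConditions at himp
      rw [forms_mk hmd v hv, max_eq_right hpos.le, ← hterm] at himp
      rw [himp] at h1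
      exact lt_irrefl _ h1
    · intro hno
      refine generally_of_poly Φ hΦ0 ?_
      intro v hv hv2
      have h1 := (hΦ _ hv2).2.2.1 (by
        intro i j hij
        by_contra hcon
        refine hno ⟨hmd, i, j, hij, ?_⟩
        have := hmd i
        have := hmd j
        omega)
      unfold ImposesMaximalConditions
      rw [forms_mk hmd v hv, max_eq_right hpos.le, ← hterm]
      exact h1
  · push Not at hmd
    refine ⟨fun h => ?_, fun h => ?_, fun h => ?_, fun _ => ?_⟩
    · obtain ⟨i, hi⟩ := hmd
      exact absurd (h i) (by omega)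
    · refine generally_of_poly 1 one_ne_zero ?_
      intro v hv _
      exact hbot v hv h
    · obtain ⟨i, hi⟩ := hmd
      exact absurd (h.1 i) (by omega)
    · refine generally_of_poly 1 one_ne_zero ?_
      intro v hv _
      unfold ImposesMaximalConditions
      rw [hbot v hv hmd, finrank_bot, Nat.cast_zero, eq_comm, max_eq_left_iff, sub_nonpos]
      obtain ⟨i, hi⟩ := hmd
      have h3 : ((d + n).choose n : ℤ) ≤ ((m i + n - 1).choose n : ℤ) := by
        exact_mod_cast Nat.choose_le_choose n (by omega)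
      refine h3.trans ?_
      exact Finset.single_le_sum (f := fun i => ((m i + n - 1).choose n : ℤ))
        (fun j _ => by positivity) (Finset.mem_univ i)

end Pool.Agent.Results.MP_1dafdd_ag.PositiveDensity
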