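import Pool.Agent.TH3.IR.Window

set_option autoImplicit false

/-!
# `k ≥ 3 ^ r` general fat points of arbitrary multiplicities in projective space of dimension `r`

Let `r ≥ 2`, `k ≥ 3 ^ r`, and let `m 1, …, m k` be arbitrary. For `k` general points of `ℙ^r` (one
nonempty Zariski open set for all degrees `d`):

* if `k ^ ((r - 1) / r) * d < ∑ m i`, then no nonzero form of degree `d` vanishes to order at least
  `m i` at the `i`-th point for all `i`, and the fat point scheme imposes maximal conditions;
* if `k ^ (1 / r) * (m i + r - 1) + (r - 1) ≤ d` for all `i`, then the fat point scheme imposes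
  independent (hence maximal) conditions in degree `d`.

For equal multiplicities `m` only degrees `d` with
`k ^ (1 / r) * m ≤ d < k ^ (1 / r) * (m + r - 1) + (r - 1)` remain, a window whose length does not
depend on `m`.

The proof passes from forms of degree `d` to Laurent polynomials with exponents in a simplex. The
field is extended by Hahn series, the points move to the neighbourhood of a rational curve with one
node (first a cubic, then nodal curves of small degree in the remaining plane coordinates), and the
leading coefficients are Laurent polynomials in one more parameter with exponents in a new, thinner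
simplex, whose shape is prescribed by the real number `k ^ (1 / r)`. The last simplex is so thin
that `k` points of the line decide.
-/

namespace Pool.Agent.Results.MP_1dafdd_ag.WindowEveryDimension

open MvPolynomial
open scoped LinearAlgebra.Projectivization
open Pool.Agent.H350R3.MG

/-- `V_d(Γ)`: the forms of degree `d` vanishing to order at least `m i` at the `i`-th point. -/
noncomputable def forms {r k : ℕ} (d : ℕ) (m : Fin k → ℕ) (P : Fin k → ℙ ℂ (Fin (r + 1) → ℂ)) :
    Submodule ℂ (MvPolynomial (Fin (r + 1)) ℂ) :=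
  homogeneousSubmodule (Fin (r + 1)) ℂ d ⊓
    Submodule.restrictScalars ℂ (⨅ i, primeIdeal (P i) ^ m i : Ideal (MvPolynomial (Fin (r + 1)) ℂ))

/-- The naive count `binom (d + r) r - ∑ i, binom (m i + r - 1) r`. -/
def naive (r : ℕ) {k : ℕ} (d : ℕ) (m : Fin k → ℕ) : ℤ :=
  ((d + r).choose r : ℤ) - ∑ i, ((m i + r - 1).choose r : ℤ)

/-- `Γ` imposes maximal conditions in degree `d`. -/
def ImposesMaximalConditions {r k : ℕ} (d : ℕ) (m : Fin k → ℕ)
    (P : Fin k → ℙ ℂ (Fin (r + 1) → ℂ)) : Prop :=
  (Module.finrank ℂ (forms d m P) : ℤ) = max 0 (naive r d m)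

/-- For `r ≥ 2`, `k ≥ 3 ^ r`, arbitrary multiplicities and `k` general points of `ℙ^r`, for every
`d`: there are no forms, and the conditions are maximal, if `k ^ ((r - 1) / r) * d < ∑ m i`; the
conditions are independent if `k ^ (1 / r) * (m i + r - 1) + (r - 1) ≤ d` for all `i`. -/
theorem result (r k : ℕ) (hr : 2 ≤ r) (hk : 3 ^ r ≤ k) (m : Fin k → ℕ) :
    Generally (fun P : Fin k → ℙ ℂ (Fin (r + 1) → ℂ) => ∀ d : ℕ,
      ((k : ℝ) ^ (((r : ℝ) - 1) / r) * d < ∑ i, (m i : ℝ) →
        forms d m P = ⊥ ∧ ImposesMaximalConditions d m P) ∧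
      ((∀ i, (k : ℝ) ^ (1 / (r : ℝ)) * ((m i : ℝ) + r - 1) + ((r : ℝ) - 1) ≤ d) →
        (Module.finrank ℂ (forms d m P) : ℤ) = naive r d m ∧ ImposesMaximalConditions d m P)) := by
  obtain ⟨U, hU, hU', h⟩ := TH3.IR.main_window hr hk m
  refine ⟨U, hU, hU', fun P hP d => ?_⟩
  obtain ⟨h1, h2⟩ := h P hP d
  have e : ∑ i, ((m i + r - 1).choose r : ℤ) = ((∑ i, (m i + r - 1).choose r : ℕ) : ℤ) := by
    push_cast
    rfl
  refine ⟨fun hd => ?_, fun hd => ?_⟩
  · obtain ⟨h3, h4⟩ := h1 hd
    have h5 : forms d m P = ⊥ := h3
    refine ⟨h5, ?_⟩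
    unfold ImposesMaximalConditions naive
    rw [h5, finrank_bot, e]
    omega
  · have h3 : ∑ i, (m i + r - 1).choose r + Module.finrank ℂ ↥(forms d m P) =
        (d + r).choose r := h2 hd
    unfold ImposesMaximalConditions naive
    rw [e]
    omega

end Pool.Agent.Results.MP_1dafdd_ag.WindowEveryDimension
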